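import Pool.Agent.Helper92.LW.Prev

/-!
# XL, G: convergence of the means of test functions of polynomial growth
-/

open MeasureTheory Real Set Filter Topology

set_option autoImplicit false

namespace Pool.Agent.Helper3.XL

open Pool.Agent.Helper92.LW

/-- the tail -/
theorem tail_bound {ν : Measure ℝ} [IsProbabilityMeasure ν] {φ : ℝ → ℝ} (hφ : Continuous φ) {A : ℝ} {q : ℕ}
    (hg : ∀ y, |φ y| ≤ A * (1 + |y|) ^ q) (K : ℕ) {C : ℝ} (hi : Integrable (fun y : ℝ => y ^ (2 * (q + 1))) ν)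
    (hC : ∫ y, y ^ (2 * (q + 1)) ∂ν ≤ C) :
    |(∫ y, φ y ∂ν) - ∫ y, φ y * cut K y ∂ν| ≤ A * 2 ^ q / ((K : ℝ) + 1) * C := by
  have hA : 0 ≤ A := by
    have := hg 0
    simp only [abs_zero, add_zero, one_pow, mul_one] at this
    exact (abs_nonneg _).trans this
  have hpt : ∀ y, ‖φ y * (1 - cut K y)‖ ≤ A * 2 ^ q / ((K : ℝ) + 1) * y ^ (2 * (q + 1)) := by
    intro y
    have hK : (0 : ℝ) < (K : ℝ) + 1 := by positivity
    have hy2 : y ^ (2 * (q + 1)) = |y| ^ (2 * (q + 1)) := by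
      rw [pow_mul, pow_mul, sq_abs]
    rcases le_or_gt |y| ((K : ℝ) + 1) with h | h
    · rw [cut_one K h, sub_self, mul_zero, norm_zero, hy2]
      positivity
    · have h1 : (1 : ℝ) ≤ |y| := by
        have : (0 : ℝ) ≤ K := Nat.cast_nonneg K
        linarith
      have h2 : |1 - cut K y| ≤ 1 := by
        rw [abs_le]
        constructor
        · linarith [cut_le K y]
        · linarith [cut_nonneg K y]
      rw [Real.norm_eq_abs, abs_mul, hy2]
      calc |φ y| * |1 - cut K y| ≤ |φ y| * 1 := mul_le_mul_of_nonneg_left h2 (abs_nonneg _)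
        _ = |φ y| := mul_one _
        _ ≤ A * (1 + |y|) ^ q := hg y
        _ ≤ A * (2 * |y|) ^ q := by
            apply mul_le_mul_of_nonneg_left _ hA
            exact pow_le_pow_left₀ (by positivity) (by linarith) q
        _ = A * 2 ^ q / ((K : ℝ) + 1) * (|y| ^ q * ((K : ℝ) + 1)) := by
            rw [mul_pow]
            field_simp
        _ ≤ A * 2 ^ q / ((K : ℝ) + 1) * |y| ^ (2 * (q + 1)) := by
            apply mul_le_mul_of_nonneg_left _ (by positivity)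
            calc |y| ^ q * ((K : ℝ) + 1) ≤ |y| ^ q * |y| := mul_le_mul_of_nonneg_left h.le (by positivity)
              _ = |y| ^ (q + 1) := (pow_succ _ _).symm
              _ ≤ |y| ^ (2 * (q + 1)) := pow_le_pow_right₀ h1 (by omega)
  have hm : Continuous fun y => φ y * (1 - cut K y) := hφ.mul (continuous_const.sub (cut_cont K))
  have hi2 : Integrable (fun y => φ y * (1 - cut K y)) ν :=
    (hi.const_mul (A * 2 ^ q / ((K : ℝ) + 1))).mono' hm.aestronglyMeasurable (Eventually.of_forall hpt)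
  have hs : HasCompactSupport fun y => φ y * cut K y := by
    refine HasCompactSupport.intro (K := Icc (-(2 * ((K : ℝ) + 1))) (2 * ((K : ℝ) + 1))) isCompact_Icc fun y hy => ?_
    have h1 : 2 * ((K : ℝ) + 1) ≤ |y| := by
      by_contra hcon
      exact hy (abs_le.1 (not_le.1 hcon).le)
    rw [cut_zero K h1, mul_zero]
  have hi1 : Integrable (fun y => φ y * cut K y) ν := (hφ.mul (cut_cont K)).integrable_of_hasCompactSupport hs
  have hsum : ∫ y, φ y ∂ν = (∫ y, φ y * cut K y ∂ν) + ∫ y, φ y * (1 - cut K y) ∂ν := by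
    rw [← integral_add hi1 hi2]
    congr 1
    funext y
    ring
  rw [hsum, add_sub_cancel_left]
  calc |∫ y, φ y * (1 - cut K y) ∂ν| = ‖∫ y, φ y * (1 - cut K y) ∂ν‖ := (Real.norm_eq_abs _).symm
    _ ≤ ∫ y, A * 2 ^ q / ((K : ℝ) + 1) * y ^ (2 * (q + 1)) ∂ν :=
        norm_integral_le_of_norm_le (hi.const_mul _) (Eventually.of_forall hpt)
    _ = A * 2 ^ q / ((K : ℝ) + 1) * ∫ y, y ^ (2 * (q + 1)) ∂ν := integral_const_mul _ _
    _ ≤ A * 2 ^ q / ((K : ℝ) + 1) * C := mul_le_mul_of_nonneg_left hC (by positivity)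

/-- a function with compact support is close to a polynomial times a cutoff -/
theorem poly_approx {g : ℝ → ℝ} (hg : Continuous g) (K : ℕ) (hz : ∀ y, 2 * ((K : ℝ) + 1) ≤ |y| → g y = 0) {δ : ℝ}
    (hδ : 0 < δ) : ∃ (p : Polynomial ℝ), ∀ y, |g y - p.eval y * cut (2 * K + 1) y| ≤ δ := by
  obtain ⟨p, hp⟩ := exists_polynomial_near_of_continuousOn (-(2 * (((2 * K + 1 : ℕ) : ℝ) + 1)))
    (2 * (((2 * K + 1 : ℕ) : ℝ) + 1)) g hg.continuousOn δ hδ
  refine ⟨p, fun y => ?_⟩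
  rcases le_or_gt (2 * (((2 * K + 1 : ℕ) : ℝ) + 1)) |y| with h | h
  · rw [cut_zero _ h, mul_zero, hz y, sub_zero, abs_zero]
    · exact hδ.le
    · push_cast at h
      have : (0 : ℝ) ≤ K := Nat.cast_nonneg K
      linarith
  · have hyI : y ∈ Icc (-(2 * (((2 * K + 1 : ℕ) : ℝ) + 1))) (2 * (((2 * K + 1 : ℕ) : ℝ) + 1)) := abs_le.1 h.le
    have h1 := (hp y hyI).le
    rcases le_or_gt |y| (((2 * K + 1 : ℕ) : ℝ) + 1) with h2 | h2
    · rw [cut_one _ h2, mul_one, abs_sub_comm]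
      exact h1
    · have h3 : g y = 0 := by
        apply hz
        push_cast at h2
        have : (0 : ℝ) ≤ K := Nat.cast_nonneg K
        linarith
      rw [h3, sub_zero] at h1
      rw [h3, zero_sub, abs_neg, abs_mul]
      calc |p.eval y| * |cut (2 * K + 1) y| ≤ |p.eval y| * 1 := by
            apply mul_le_mul_of_nonneg_left _ (abs_nonneg _)
            rw [abs_of_nonneg (cut_nonneg _ _)]
            exact cut_le _ _
        _ = |p.eval y| := mul_one _
        _ ≤ δ := h1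

/-- the integral of a polynomial times a cutoff -/
theorem int_poly (ν : Measure ℝ) [IsProbabilityMeasure ν] (p : Polynomial ℝ) (K : ℕ) :
    ∫ y, p.eval y * cut K y ∂ν = ∑ j ∈ Finset.range (p.natDegree + 1), p.coeff j * ∫ y, fjk j K y ∂ν := by
  have h1 : ∀ y, p.eval y * cut K y = ∑ j ∈ Finset.range (p.natDegree + 1), p.coeff j * fjk j K y := by
    intro y
    rw [Polynomial.eval_eq_sum_range, Finset.sum_mul]
    refine Finset.sum_congr rfl fun j _ => ?_
    unfold fjk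
    ring
  rw [integral_congr_ae (Eventually.of_forall h1), integral_finsetSum]
  · refine Finset.sum_congr rfl fun j _ => ?_
    rw [integral_const_mul]
  · intro j _
    exact ((fjk_cont j K).integrable_of_hasCompactSupport (fjk_supp j K)).const_mul _

/-- G (pure): test functions of polynomial growth -/
theorem grow_conv {lam mu : ℕ → Measure ℝ} (hl : ∀ n, IsProbabilityMeasure (lam n)) (hm : ∀ n, IsProbabilityMeasure (mu n))
    (hc : ∀ j K n : ℕ, ∃ n0 : ℕ, ∀ N : ℕ, n0 ≤ N → ∃ X₀ : ℕ, ∀ X : ℕ, X₀ + 1 ≤ X →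
      |(∫ y, fjk j K y ∂(lam X)) - ∫ y, fjk j K y ∂(mu N)| ≤ 1 / ((n : ℝ) + 1))
    (hbl : ∀ J : ℕ, ∃ C : ℝ, ∀ X : ℕ, 1 ≤ X → Integrable (fun y : ℝ => y ^ (2 * J)) (lam X) ∧ ∫ y, y ^ (2 * J) ∂(lam X) ≤ C)
    (hbm : ∀ J : ℕ, ∃ C : ℕ, ∀ N : ℕ, C ≤ N → Integrable (fun y : ℝ => y ^ (2 * J)) (mu N) ∧ ∫ y, y ^ (2 * J) ∂(mu N) ≤ C)
    {φ : ℝ → ℝ} (hφ : Continuous φ) {A : ℝ} {q : ℕ} (hg : ∀ y, |φ y| ≤ A * (1 + |y|) ^ q) :
    ∀ ε : ℝ, 0 < ε → ∃ n0 : ℕ, ∀ N : ℕ, n0 ≤ N → ∃ X₀ : ℕ, ∀ X : ℕ, X₀ + 1 ≤ X → |(∫ y, φ y ∂(lam X)) - ∫ y, φ y ∂(mu N)| ≤ ε := by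
  intro ε hε
  have hA : 0 ≤ A := by
    have := hg 0
    simp only [abs_zero, add_zero, one_pow, mul_one] at this
    exact (abs_nonneg _).trans this
  obtain ⟨C1, hC1⟩ := hbl (q + 1)
  obtain ⟨C2, hC2⟩ := hbm (q + 1)
  -- the choice of K
  obtain ⟨K, hK⟩ := exists_nat_gt (A * 2 ^ q * (|C1| + C2) / (ε / 5))
  have hK1 : (0 : ℝ) < (K : ℝ) + 1 := by positivity
  have hsmall : A * 2 ^ q / ((K : ℝ) + 1) * (|C1| + C2) ≤ ε / 5 := by
    rw [div_lt_iff₀ (by positivity)] at hK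
    rw [div_mul_eq_mul_div, div_le_iff₀ hK1]
    nlinarith
  have hc1 : A * 2 ^ q / ((K : ℝ) + 1) * C1 ≤ ε / 5 := by
    refine le_trans (mul_le_mul_of_nonneg_left ?_ (by positivity)) hsmall
    have := le_abs_self C1
    have : (0 : ℝ) ≤ C2 := Nat.cast_nonneg C2
    linarith
  have hc2 : A * 2 ^ q / ((K : ℝ) + 1) * (C2 : ℝ) ≤ ε / 5 := by
    refine le_trans (mul_le_mul_of_nonneg_left ?_ (by positivity)) hsmall
    have := abs_nonneg C1
    linarith
  -- the polynomial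
  obtain ⟨p, hp⟩ := poly_approx (g := fun y => φ y * cut K y) (hφ.mul (cut_cont K)) K
    (fun y hy => by rw [cut_zero K hy, mul_zero]) (δ := ε / 5) (by positivity)
  have hapx : ∀ (ν : Measure ℝ) [IsProbabilityMeasure ν],
      |(∫ y, φ y * cut K y ∂ν) - ∑ j ∈ Finset.range (p.natDegree + 1), p.coeff j * ∫ y, fjk j (2 * K + 1) y ∂ν| ≤ ε / 5 := by
    intro ν _
    rw [← int_poly]
    have hs : HasCompactSupport fun y => φ y * cut K y := by
      refine HasCompactSupport.intro (K := Icc (-(2 * ((K : ℝ) + 1))) (2 * ((K : ℝ) + 1))) isCompact_Icc fun y hy => ?_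
      have h1 : 2 * ((K : ℝ) + 1) ≤ |y| := by
        by_contra hcon
        exact hy (abs_le.1 (not_le.1 hcon).le)
      rw [cut_zero K h1, mul_zero]
    have hs2 : HasCompactSupport fun y => p.eval y * cut (2 * K + 1) y := by
      refine HasCompactSupport.intro (K := Icc (-(2 * (((2 * K + 1 : ℕ) : ℝ) + 1))) (2 * (((2 * K + 1 : ℕ) : ℝ) + 1)))
        isCompact_Icc fun y hy => ?_
      have h1 : 2 * (((2 * K + 1 : ℕ) : ℝ) + 1) ≤ |y| := by
        by_contra hcon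
        exact hy (abs_le.1 (not_le.1 hcon).le)
      rw [cut_zero _ h1, mul_zero]
    have hi1 : Integrable (fun y => φ y * cut K y) ν := (hφ.mul (cut_cont K)).integrable_of_hasCompactSupport hs
    have hi2 : Integrable (fun y => p.eval y * cut (2 * K + 1) y) ν :=
      (p.continuous.mul (cut_cont _)).integrable_of_hasCompactSupport hs2
    rw [← integral_sub hi1 hi2, ← Real.norm_eq_abs]
    have := norm_integral_le_of_norm_le_const (μ := ν) (f := fun y => φ y * cut K y - p.eval y * cut (2 * K + 1) y)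
      (C := ε / 5) (Eventually.of_forall fun y => hp y)
    simpa using this
  -- the choice of n
  set S : ℝ := ∑ j ∈ Finset.range (p.natDegree + 1), |p.coeff j| with hS
  have hS0 : 0 ≤ S := Finset.sum_nonneg fun _ _ => abs_nonneg _
  obtain ⟨n, hn⟩ := exists_nat_gt (S / (ε / 5))
  have hn1 : S * (1 / ((n : ℝ) + 1)) ≤ ε / 5 := by
    rw [div_lt_iff₀ (by positivity)] at hn
    rw [mul_one_div, div_le_iff₀ (by positivity)]
    nlinarith
  choose n0 hn0 using fun j => hc j (2 * K + 1) n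
  refine ⟨max C2 ((Finset.range (p.natDegree + 1)).sup n0), fun N hN => ?_⟩
  have hN1 : C2 ≤ N := (le_max_left _ _).trans hN
  have hN2 : ∀ j ∈ Finset.range (p.natDegree + 1), n0 j ≤ N := fun j hj =>
    (Finset.le_sup hj).trans ((le_max_right _ _).trans hN)
  have hex : ∀ j, ∃ X₀ : ℕ, j ∈ Finset.range (p.natDegree + 1) → ∀ X : ℕ, X₀ + 1 ≤ X →
      |(∫ y, fjk j (2 * K + 1) y ∂(lam X)) - ∫ y, fjk j (2 * K + 1) y ∂(mu N)| ≤ 1 / ((n : ℝ) + 1) := by
    intro j
    by_cases hj : j ∈ Finset.range (p.natDegree + 1)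
    · obtain ⟨X₀, h⟩ := hn0 j N (hN2 j hj)
      exact ⟨X₀, fun _ => h⟩
    · exact ⟨0, fun h => absurd h hj⟩
  choose X₀ hX₀ using hex
  refine ⟨(Finset.range (p.natDegree + 1)).sup X₀, fun X hX => ?_⟩
  have hX1 : ∀ j ∈ Finset.range (p.natDegree + 1), X₀ j + 1 ≤ X := fun j hj =>
    (Nat.add_le_add_right (Finset.le_sup hj) 1).trans hX
  have hlX := hl X
  have hmN := hm N
  have e1 := tail_bound (ν := lam X) hφ hg K (hC1 X (by omega)).1 (hC1 X (by omega)).2
  have e2 := tail_bound (ν := mu N) hφ hg K (hC2 N hN1).1 (hC2 N hN1).2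
  have e3 := hapx (lam X)
  have e4 := hapx (mu N)
  have e5 : |(∑ j ∈ Finset.range (p.natDegree + 1), p.coeff j * ∫ y, fjk j (2 * K + 1) y ∂(lam X)) -
      ∑ j ∈ Finset.range (p.natDegree + 1), p.coeff j * ∫ y, fjk j (2 * K + 1) y ∂(mu N)| ≤ ε / 5 := by
    rw [← Finset.sum_sub_distrib]
    refine (Finset.abs_sum_le_sum_abs _ _).trans (le_trans ?_ hn1)
    rw [hS, Finset.sum_mul]
    refine Finset.sum_le_sum fun j hj => ?_
    rw [← mul_sub, abs_mul]
    exact mul_le_mul_of_nonneg_left (hX₀ j hj X (hX1 j hj)) (abs_nonneg _)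
  rw [abs_le] at e1 e2 e3 e4 e5 ⊢
  constructor
  · linarith [e1.1, e1.2, e2.1, e2.2, e3.1, e3.2, e4.1, e4.2, e5.1, e5.2]
  · linarith [e1.1, e1.2, e2.1, e2.2, e3.1, e3.2, e4.1, e4.2, e5.1, e5.2]

end Pool.Agent.Helper3.XL
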