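import Pool.Agent.Helper22.XL.Defs

/-!
# XL, E: measurability
-/

open MeasureTheory Real Set Filter Topology unitInterval

set_option autoImplicit false

namespace Pool.Agent.Helper3.XL

open Pool.Agent.Helper22.AE
open Pool.Agent.Helper93.EX (ak prim sn fJ)
open Pool.Agent.Helper22.XL

variable {H₀ : ℝ → ℝ} {s : ℕ → ℝ}

theorem fJ_cont (J : ℕ) : Continuous (fJ J) := by
  unfold fJ
  fun_prop

theorem ak_cont (h0 : ContDiff ℝ 2 H₀) (hs : Summable (fun l : ℕ => (l : ℝ) ^ 2 * |s l|)) (k : ℤ × ℤ) :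
    Continuous fun x : ℕ → I × I => ak (Hx H₀ s x) k := by
  unfold ak rho
  exact continuous_const.mul (((Hx_rho_cont h0 hs).comp (continuous_id.prodMk continuous_const)).sqrt)

/-- the random sum depends continuously on the parameters -/
theorem Zs_cont2 (h0 : ContDiff ℝ 2 H₀) (hs : Summable (fun l : ℕ => (l : ℝ) ^ 2 * |s l|)) (N : ℕ) (c : ℝ × ℝ) :
    Continuous fun q : (ℕ → I × I) × ({k // k ∈ prim N} → ℝ) => Zs (Hx H₀ s q.1) N q.2 c := by
  unfold Zs
  refine continuous_finsetSum _ fun k _ => ?_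
  have h1 : Continuous fun q : (ℕ → I × I) × ({k // k ∈ prim N} → ℝ) => ak (Hx H₀ s q.1) k.1 :=
    (ak_cont h0 hs k.1).comp continuous_fst
  have h2 : Continuous fun q : (ℕ → I × I) × ({k // k ∈ prim N} → ℝ) =>
      q.2 k + ((k.1.1 : ℝ) * c.1 + (k.1.2 : ℝ) * c.2) := by
    fun_prop
  exact h1.mul ((fJ_cont _).comp h2)

/-- and on the centre -/
theorem Zs_contc (H : ℝ → ℝ) (N : ℕ) (u : {k // k ∈ prim N} → ℝ) : Continuous fun c : ℝ × ℝ => Zs H N u c := by
  unfold Zs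
  refine continuous_finsetSum _ fun k _ => ?_
  have h2 : Continuous fun c : ℝ × ℝ => u k + ((k.1.1 : ℝ) * c.1 + (k.1.2 : ℝ) * c.2) := by
    fun_prop
  exact continuous_const.mul ((fJ_cont _).comp h2)

/-- E1 -/
theorem mF_meas (h0 : ContDiff ℝ 2 H₀) (hp : Function.Periodic H₀ (2 * π))
    (hs : Summable (fun l : ℕ => (l : ℝ) ^ 2 * |s l|)) (N : ℕ) {φ : ℝ → ℝ} (hφ : Continuous φ) :
    Measurable fun x : ℕ → I × I => mF N φ (Hx H₀ s x) := by
  unfold mF
  have h1 : Continuous fun q : (ℕ → I × I) × ({k // k ∈ prim N} → ℝ) => φ (Zs (Hx H₀ s q.1) N q.2 (0, 0)) :=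
    hφ.comp (Zs_cont2 h0 hs N (0, 0))
  exact (h1.stronglyMeasurable.integral_prod_right' (ν := volume.restrict (Icc (0 : {k // k ∈ prim N} → ℝ) 1))).measurable

theorem mS_meas (h0 : ContDiff ℝ 2 H₀) (hp : Function.Periodic H₀ (2 * π))
    (hs : Summable (fun l : ℕ => (l : ℝ) ^ 2 * |s l|)) (N : ℕ) {φ : ℝ → ℝ} (hφ : Continuous φ) :
    Measurable fun x : ℕ → I × I => mS N φ (Hx H₀ s x) := by
  unfold mS
  have h1 : Measurable fun q : (ℕ → I × I) × ({k // k ∈ prim N} → ℝ) => φ (ZS (Hx H₀ s q.1) N q.2) := by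
    refine hφ.measurable.comp ?_
    obtain ⟨S, hSc, hSd⟩ := TopologicalSpace.exists_countable_dense (ℝ × ℝ)
    have e : (fun q : (ℕ → I × I) × ({k // k ∈ prim N} → ℝ) => ZS (Hx H₀ s q.1) N q.2) =
        fun q => ⨆ c : S, |Zs (Hx H₀ s q.1) N q.2 c| := by
      funext q
      unfold ZS
      refine (hSd.ciSup' (f := fun c : ℝ × ℝ => |Zs (Hx H₀ s q.1) N q.2 c|) ?_).symm
      exact (Zs_contc _ _ _).abs
    rw [e]
    have := hSc.to_subtype
    refine Measurable.iSup fun c => ?_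
    exact (Zs_cont2 h0 hs N c.1).abs.measurable
  exact (h1.stronglyMeasurable.integral_prod_right' (ν := volume.restrict (Icc (0 : {k // k ∈ prim N} → ℝ) 1))).measurable

end Pool.Agent.Helper3.XL
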